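import Pool.Agent.helper66.WD.Spec

/-!
# Project WD, row SUB: translation costs `n` operations
-/

universe u

namespace Pool.Agent.WD

open MvPolynomial Pool.Agent.helper92.VC

theorem SUB_base {n : ℕ} {k : Type u} [Field k] (γ : Fin n → k) (l : List (Fin n)) :
    SLP (l.map fun i => (X i + C (γ i) : MvPolynomial (Fin n) k)) := by
  induction l with
  | nil => exact SLP.nil
  | cons i l ih =>
    rw [List.map_cons]
    exact SLP.add _ _ _ ih (Or.inl ⟨i, rfl⟩) (Or.inr (Or.inl ⟨γ i, rfl⟩))

/-- the list of the translated variables -/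
noncomputable def SUB_L {n : ℕ} {k : Type u} [Field k] (γ : Fin n → k) :
    List (MvPolynomial (Fin n) k) :=
  (List.finRange n).map fun i => X i + C (γ i)

theorem SUB_av {n : ℕ} {k : Type u} [Field k] (γ : Fin n → k)
    (l : List (MvPolynomial (Fin n) k)) (a : MvPolynomial (Fin n) k) (h : Avail l a) :
    Avail (l.map (shift γ) ++ SUB_L γ) (shift γ a) := by
  rcases h with ⟨i, rfl⟩ | ⟨c, rfl⟩ | h
  · right; right
    rw [List.mem_append]
    right
    unfold SUB_L shift
    rw [aeval_X]
    exact List.mem_map.2 ⟨i, List.mem_finRange i, rfl⟩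
  · right; left
    refine ⟨c, ?_⟩
    unfold shift
    rw [← algebraMap_eq, AlgHom.commutes]
  · right; right
    rw [List.mem_append]
    left
    exact List.mem_map.2 ⟨a, h, rfl⟩

theorem SUB_slp {n : ℕ} {k : Type u} [Field k] (γ : Fin n → k)
    (l : List (MvPolynomial (Fin n) k)) (h : SLP l) : SLP (l.map (shift γ) ++ SUB_L γ) := by
  induction h with
  | nil => exact SUB_base γ _
  | add l a b hl ha hb ih =>
    rw [List.map_cons, List.cons_append, map_add]
    exact SLP.add _ _ _ ih (SUB_av γ l a ha) (SUB_av γ l b hb)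
  | sub l a b hl ha hb ih =>
    rw [List.map_cons, List.cons_append, map_sub]
    exact SLP.sub _ _ _ ih (SUB_av γ l a ha) (SUB_av γ l b hb)
  | mul l a b hl ha hb ih =>
    rw [List.map_cons, List.cons_append, map_mul]
    exact SLP.mul _ _ _ ih (SUB_av γ l a ha) (SUB_av γ l b hb)

theorem SUB : SUB_stmt.{u} := by
  intro n s k _ p γ ⟨l, hl, hs, ha⟩
  refine ⟨l.map (shift γ) ++ SUB_L γ, SUB_slp γ l hl, ?_, SUB_av γ l p ha⟩
  unfold SUB_L
  rw [List.length_append, List.length_map, List.length_map, List.length_finRange]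
  omega

end Pool.Agent.WD
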